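import Pool.Agent.MP_9181f8_al.Grp

namespace Pool.Agent.MP_9181f8_al

attribute [local instance] fact13

open Finset
open scoped commutatorElement

/-- Every bilinear map factors through the multiplication of a large finite field. -/
lemma camina {L : Type} [AddCommGroup L] [Module K L] [Finite L] (β₀ : L →ₗ[K] L →ₗ[K] L) :
    ∃ (A : Type) (_ : AddCommGroup A) (_ : Module K A) (_ : Finite A)
      (β : A →ₗ[K] A →ₗ[K] L) (i j : L →ₗ[K] A),
      (∀ a, a ≠ 0 → Function.Surjective (β a)) ∧
      (∀ b, b ≠ 0 → Function.Surjective (β.flip b)) ∧ ∀ x y, β (i x) (j y) = β₀ x y := by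
  classical
  obtain ⟨m, hm⟩ : ∃ m, m = Module.finrank K L := ⟨_, rfl⟩
  let e : Module.Basis (Fin m) K L := Module.finBasisOfFinrankEq K L hm.symm
  let F := GaloisField 13 (m * m + m + 1)
  let pb : PowerBasis K F := Field.powerBasisOfFiniteOfSeparable K F
  have hd : pb.dim = m * m + m + 1 := by
    rw [← pb.finrank]; exact GaloisField.finrank 13 (Nat.succ_ne_zero _)
  let e' : ℕ → L := fun k => if h : k < m then e ⟨k, h⟩ else 0
  have he' : ∀ k : Fin m, e' k = e k := fun k => by simp [e', k.2]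
  let π : F →ₗ[K] L := pb.basis.constr K fun r =>
    if (r : ℕ) < m * m then β₀ (e' (r % m)) (e' (r / m)) else e' (r - m * m)
  have hπ : ∀ r : ℕ, r < m * m + m + 1 → π (pb.gen ^ r) =
      if r < m * m then β₀ (e' (r % m)) (e' (r / m)) else e' (r - m * m) := by
    intro r hr
    have := pb.basis.constr_basis K (fun r : Fin pb.dim =>
      if (r : ℕ) < m * m then β₀ (e' (r % m)) (e' (r / m)) else e' (r - m * m)) ⟨r, by rw [hd]; exact hr⟩
    rw [pb.basis_eq_pow] at this
    exact this
  have hsurj : Function.Surjective π := by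
    rw [← LinearMap.range_eq_top, eq_top_iff, ← e.span_eq, Submodule.span_le]
    rintro _ ⟨k, rfl⟩
    refine ⟨pb.gen ^ (m * m + k), ?_⟩
    have := k.2
    rw [hπ _ (by omega), if_neg (by omega), Nat.add_sub_cancel_left, he']
  let β : F →ₗ[K] F →ₗ[K] L := (LinearMap.mul K F).compr₂ π
  have hβ : ∀ a b, β a b = π (a * b) := fun a b => rfl
  let i : L →ₗ[K] F := e.constr K fun k => pb.gen ^ (k : ℕ)
  let j : L →ₗ[K] F := e.constr K fun k => pb.gen ^ (m * (k : ℕ))
  refine ⟨F, inferInstance, inferInstance, inferInstance, β, i, j, ?_, ?_, ?_⟩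
  · intro a ha u
    obtain ⟨w, hw⟩ := hsurj u
    exact ⟨a⁻¹ * w, by rw [hβ, mul_inv_cancel_left₀ ha, hw]⟩
  · intro b hb u
    obtain ⟨w, hw⟩ := hsurj u
    exact ⟨w * b⁻¹, by rw [LinearMap.flip_apply, hβ, inv_mul_cancel_right₀ hb, hw]⟩
  · have : β.compl₁₂ i j = β₀ := by
      refine LinearMap.ext_basis e e fun k l => ?_
      have hk := k.2
      have hl := l.2
      have h1 : (k : ℕ) + m * l < m * m := by nlinarith
      rw [LinearMap.compl₁₂_apply, hβ, e.constr_basis, e.constr_basis, ← pow_add,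
        hπ _ (by omega), if_pos h1, Nat.add_mul_mod_self_left, Nat.mod_eq_of_lt hk,
        Nat.add_mul_div_left _ _ (by omega), Nat.div_eq_of_lt hk, zero_add, he', he']
    intro x y
    rw [← this, LinearMap.compl₁₂_apply]

/-- Groups of class at most two and exponent dividing `13`. -/
structure Cl2 (P : Type) [Group P] : Prop where
  cen : ∀ x y : P, ⁅x, y⁆ ∈ Subgroup.center P
  ex : ∀ x : P, x ^ 13 = 1

variable {P : Type} [Group P]

namespace Cl2

variable (h : Cl2 P)
include h

lemma comm (x y z : P) : z * ⁅x, y⁆ = ⁅x, y⁆ * z := Subgroup.mem_center_iff.1 (h.cen x y) z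

lemma mul_left (x y z : P) : ⁅x * y, z⁆ = ⁅x, z⁆ * ⁅y, z⁆ := by
  calc ⁅x * y, z⁆ = x * ⁅y, z⁆ * (z * x⁻¹ * z⁻¹) := by simp only [commutatorElement_def]; group
    _ = ⁅y, z⁆ * ⁅x, z⁆ := by rw [h.comm y z x]; simp only [commutatorElement_def]; group
    _ = _ := h.comm _ _ _

lemma mul_right (x y z : P) : ⁅x, y * z⁆ = ⁅x, y⁆ * ⁅x, z⁆ := by
  calc ⁅x, y * z⁆ = x * y * x⁻¹ * (⁅x, z⁆ * y⁻¹) := by simp only [commutatorElement_def]; group
    _ = _ := by rw [← h.comm x z y⁻¹]; simp only [commutatorElement_def]; group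

lemma comm_pow (x y z : P) (n : ℕ) : z * ⁅x, y⁆ ^ n = ⁅x, y⁆ ^ n * z :=
  (Commute.pow_right (h.comm x y z) n).eq

lemma cen_left (x y z : P) (n : ℕ) : ⁅⁅x, y⁆ ^ n, z⁆ = 1 :=
  commutatorElement_eq_one_iff_mul_comm.2 (h.comm_pow x y z n).symm

lemma cen_right (x y z : P) (n : ℕ) : ⁅z, ⁅x, y⁆ ^ n⁆ = 1 :=
  commutatorElement_eq_one_iff_mul_comm.2 (h.comm_pow x y z n)

lemma mul_pow' (x y z w : P) (n : ℕ) : (⁅x, y⁆ * ⁅z, w⁆) ^ n = ⁅x, y⁆ ^ n * ⁅z, w⁆ ^ n :=
  Commute.mul_pow (h.comm z w _) n

end Cl2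

/-- The additive group attached to a group of class two by Baer. -/
def Baer (_ : Cl2 P) : Type := P

namespace Baer

variable {h : Cl2 P}

/-- The identity map. -/
def val (x : Baer h) : P := x

/-- The identity map. -/
def of (h : Cl2 P) (x : P) : Baer h := x

lemma to_inj {x y : Baer h} (e : x.val = y.val) : x = y := e

instance : Add (Baer h) := ⟨fun x y => of h (x.val * y.val * ⁅x.val, y.val⁆ ^ 6)⟩
instance : Zero (Baer h) := ⟨of h 1⟩
instance : Neg (Baer h) := ⟨fun x => of h x.val⁻¹⟩

lemma to_add (x y : Baer h) : (x + y).val = x.val * y.val * ⁅x.val, y.val⁆ ^ 6 := rfl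
lemma to_zero : (0 : Baer h).val = 1 := rfl
lemma to_neg (x : Baer h) : (-x).val = x.val⁻¹ := rfl
lemma to_of (x : P) : (of h x).val = x := rfl

instance : AddCommGroup (Baer h) :=
  { AddGroup.ofLeftAxioms
      (fun x y z => to_inj (by
        simp only [to_add, h.mul_left, h.mul_right, h.cen_left, h.cen_right, mul_one, h.mul_pow']
        rw [mul_assoc _ _ z.val, ← h.comm_pow]
        simp only [mul_assoc]
        congr 3
        rw [← h.comm_pow y.val z.val, ← h.comm_pow x.val y.val (⁅x.val, z.val⁆ ^ 6),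
          ← mul_assoc, ← h.comm_pow x.val y.val (⁅x.val, z.val⁆ ^ 6)]))
      (fun x => to_inj (by simp [to_add, to_zero]))
      (fun x => to_inj (by
        simp [to_add, to_zero, to_neg, commutatorElement_def])) with
    add_comm := fun x y => to_inj (by
      simp only [to_add]
      have e1 : x.val * y.val = ⁅x.val, y.val⁆ * (y.val * x.val) := by
        simp only [commutatorElement_def]; group
      have e2 : ⁅y.val, x.val⁆ = ⁅x.val, y.val⁆⁻¹ := (commutatorElement_inv _ _).symm
      rw [e1, ← h.comm, e2, mul_assoc, ← pow_succ', inv_pow]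
      congr 1
      rw [eq_inv_iff_mul_eq_one, ← pow_add]
      exact h.ex _) }

lemma to_nsmul (n : ℕ) (x : Baer h) : (n • x).val = x.val ^ n := by
  induction n with
  | zero => rw [zero_nsmul, to_zero, pow_zero]
  | succ n ih =>
    rw [succ_nsmul, to_add, ih, commutatorElement_eq_one_iff_mul_comm.2
      (Commute.pow_self x.val n).eq, one_pow, mul_one, pow_succ]

instance : Module K (Baer h) :=
  AddCommGroup.zmodModule fun x => to_inj (by rw [to_nsmul, h.ex, to_zero])

instance [Finite P] : Finite (Baer h) := inferInstanceAs (Finite P)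

lemma br_left (x y z : Baer h) :
    of h ⁅(x + y).val, z.val⁆ = of h ⁅x.val, z.val⁆ + of h ⁅y.val, z.val⁆ := to_inj (by
  have := h.cen_left x.val z.val ⁅y.val, z.val⁆ 1
  rw [pow_one] at this
  simp only [to_add, to_of, h.mul_left, h.cen_left, mul_one, this, one_pow])

lemma br_right (x y z : Baer h) :
    of h ⁅x.val, (y + z).val⁆ = of h ⁅x.val, y.val⁆ + of h ⁅x.val, z.val⁆ := to_inj (by
  have := h.cen_left x.val y.val ⁅x.val, z.val⁆ 1
  rw [pow_one] at this
  simp only [to_add, to_of, h.mul_right, h.cen_right, mul_one, this, one_pow])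

/-- The commutator as a bilinear map. -/
def br (h : Cl2 P) : Baer h →ₗ[K] Baer h →ₗ[K] Baer h :=
  LinearMap.mk₂ K (fun x y => of h ⁅x.val, y.val⁆) br_left
    (fun c x y => ZMod.map_smul
      (AddMonoidHom.mk' (fun x : Baer h => of h ⁅x.val, y.val⁆) fun a b => br_left a b y) c x)
    br_right
    (fun c x y => ZMod.map_smul
      (AddMonoidHom.mk' (fun y : Baer h => of h ⁅x.val, y.val⁆) fun a b => br_right x a b) c y)

lemma to_br (x y : Baer h) : (br h x y).val = ⁅x.val, y.val⁆ := rfl

lemma of_mul (x y : P) : of h (x * y) = of h x + of h y + (7 : K) • br h (of h x) (of h y) := by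
  apply to_inj
  have e : (7 : K) • br h (of h x) (of h y) = (7 : ℕ) • br h (of h x) (of h y) :=
    Nat.cast_smul_eq_nsmul K 7 _
  rw [e, to_add, to_add, to_nsmul, to_br]
  simp only [to_of, h.cen_right, one_pow, mul_one]
  rw [mul_assoc (x * y), ← pow_add, h.ex, mul_one]

lemma br_br (x y : Baer h) : br h (br h x y) = 0 := by
  ext z
  apply to_inj
  have := h.cen_left x.val y.val z.val 1
  rw [pow_one] at this
  exact this

lemma br_zero {z : Baer h} (hz : br h z = 0) (x : Baer h) : br h x z = 0 := by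
  apply to_inj
  have : (br h z x).val = 1 := by rw [hz]; rfl
  rw [to_br] at this
  rw [to_br, ← commutatorElement_inv, this, inv_one, to_zero]

end Baer

open Baer in
theorem embed [Finite P] (h : Cl2 P) :
    ∃ (G : Type) (_ : Group G), Finite G ∧ Group.IsSolvable G ∧ IsUSR G ∧ IsQR G ∧
      ∃ f : P →* G, Function.Injective f := by
  obtain ⟨A, _, _, _, β, i, j, hl, hr, hβ⟩ := camina ((7 : K) • br h)
  obtain ⟨g, hg⟩ := LinearMap.exists_leftInverse_of_injective (LinearMap.ker (br h)).subtype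
    (Submodule.ker_subtype _)
  let r : Baer h →ₗ[K] Baer h := LinearMap.id - (LinearMap.ker (br h)).subtype ∘ₗ g
  have hr1 : ∀ x y, r (br h x y) = 0 := by
    intro x y
    have := LinearMap.congr_fun hg ⟨br h x y, br_br x y⟩
    simp only [LinearMap.comp_apply, Submodule.subtype_apply, LinearMap.id_apply] at this
    simp [r, this]
  have hr2 : ∀ x y, br h (r x) (r y) = br h x y := by
    intro x y
    have h1 : br h (g x) = 0 := (g x).2
    have h2 : br h (g y) = 0 := (g y).2
    simp [r, h1, br_zero h2]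
  refine ⟨Gp β, inferInstance, inferInstance, inferInstance, Gp.isUSR hl hr, Gp.isQR hl hr,
    MonoidHom.mk' (fun x => ⟨i (r (of h x)), j (r (of h x)), of h x, 1, 1, by simp, rfl⟩) ?_, ?_⟩
  · intro x y
    ext
    · simp [of_mul, hr1]
    · simp [of_mul, hr1]
    · simp [of_mul, hβ, hr2]
    · simp
    · simp
  · intro x y e
    exact congrArg Gp.u e

end Pool.Agent.MP_9181f8_al
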