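import Pool.Agent.MP_9181f8_al.Defs

namespace Pool.Agent.MP_9181f8_al

open Polynomial

/-- An irreducible representation is trivial on a normal subgroup, or the character vanishes on
every element that is conjugate to its whole coset. -/
lemma dich {G : Type} [Group G] [Finite G] (N : Subgroup G) [N.Normal] {V : Type} [AddCommGroup V]
    [Module ℂ V] [FiniteDimensional ℂ V] (ρ : Representation ℂ G V) [ρ.IsIrreducible] :
    (∀ n ∈ N, ρ n = 1) ∨ ∀ x : G, (∀ n ∈ N, IsConj (x * n) x) → ρ.character x = 0 := by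
  classical
  let _ : Fintype N := Fintype.ofFinite N
  let E : V →ₗ[ℂ] V := ∑ n : N, ρ n
  have hE : ∀ g : G, E * ρ g = ρ g * E := by
    intro g
    simp only [E, Finset.sum_mul, Finset.mul_sum, ← map_mul]
    rw [← Equiv.sum_comp (MulAut.conjNormal g).toEquiv]
    refine Finset.sum_congr rfl fun n _ => ?_
    simp
  let F : ρ.IntertwiningMap ρ := ⟨E, hE⟩
  rcases Representation.IsIrreducible.injective_or_eq_zero F with h | h
  · left
    intro n hn
    have h1 : E * ρ n = E := by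
      simp only [E, Finset.sum_mul, ← map_mul]
      rw [← Equiv.sum_comp (Equiv.mulRight (⟨n, hn⟩ : N)) (fun m : N => ρ m)]
      rfl
    ext v
    apply h
    exact LinearMap.congr_fun h1 v
  · right
    intro x hx
    have h0 : E = 0 := congrArg Representation.IntertwiningMap.toLinearMap h
    have h1 : ∑ n : N, ρ.character (x * n) = 0 := by
      simp only [Representation.character, map_mul]
      rw [← map_sum, ← Finset.mul_sum]
      show LinearMap.trace ℂ V (ρ x * E) = 0
      rw [h0, mul_zero, map_zero]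
    have h2 : ∀ n : N, ρ.character (x * n) = ρ.character x := by
      intro n
      obtain ⟨c, hc⟩ := isConj_iff.1 (hx n n.2)
      rw [← ρ.char_conj (x * n) c, hc]
    simp only [h2, Finset.sum_const, Finset.card_univ, nsmul_eq_mul, mul_eq_zero,
      Nat.cast_eq_zero, Fintype.card_ne_zero, false_or] at h1
    exact h1

/-- The trace of a polynomial in an operator of finite order lies in any additive subgroup
containing the values of the polynomial at the roots of unity. -/
lemma trace_mem {V : Type} [AddCommGroup V] [Module ℂ V] [FiniteDimensional ℂ V]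
    (T : Module.End ℂ V) {n : ℕ} (hT : T ^ n = 1) (Q : ℂ[X]) (hQ : 0 < Q.degree)
    (S : AddSubgroup ℂ) (hS : ∀ z : ℂ, z ^ n = 1 → Q.eval z ∈ S) :
    LinearMap.trace ℂ V (aeval T Q) ∈ S := by
  rw [Module.End.trace_eq_sum_roots_charpoly_of_splits (IsAlgClosed.splits _)]
  refine S.multiset_sum_mem _ fun μ hμ => ?_
  have h1 : (LinearMap.charpoly (aeval T Q)).IsRoot μ := (mem_roots'.1 hμ).2
  rw [← Module.End.hasEigenvalue_iff_isRoot_charpoly, Module.End.hasEigenvalue_iff_mem_spectrum,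
    spectrum.map_polynomial_aeval_of_degree_pos T Q hQ] at h1
  obtain ⟨z, hz, rfl⟩ := h1
  refine hS z ?_
  have h2 := spectrum.pow_mem_pow T n hz
  rw [hT] at h2
  rw [← Module.End.hasEigenvalue_iff_mem_spectrum] at h2
  obtain ⟨v, hv⟩ := h2.exists_hasEigenvector
  have h3 := hv.apply_eq_smul
  have h4 : (z ^ n - 1) • v = 0 := by
    rw [sub_smul, ← h3]; simp
  rcases smul_eq_zero.1 h4 with h | h
  · exact sub_eq_zero.1 h
  · exact absurd h hv.2

/-- The rational span of `1` and `s`. -/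
def quad (s : ℂ) : AddSubgroup ℂ where
  carrier := {z | ∃ α β : ℚ, z = α + β * s}
  add_mem' := by
    rintro _ _ ⟨a, b, rfl⟩ ⟨c, d, rfl⟩
    exact ⟨a + c, b + d, by push_cast; ring⟩
  zero_mem' := ⟨0, 0, by simp⟩
  neg_mem' := by
    rintro _ ⟨a, b, rfl⟩
    exact ⟨-a, -b, by push_cast; ring⟩

lemma adjoin_quad {ι : Type} (χ : ι → ℂ) (s : ℂ) (h : ∀ g, χ g ∈ quad s) :
    IntermediateField.adjoin ℚ (Set.range χ) = ⊥ ∨
      IntermediateField.adjoin ℚ (Set.range χ) = IntermediateField.adjoin ℚ {s} := by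
  by_cases hb : IntermediateField.adjoin ℚ (Set.range χ) = ⊥
  · exact Or.inl hb
  right
  apply le_antisymm
  · rw [IntermediateField.adjoin_le_iff]
    rintro _ ⟨g, rfl⟩
    obtain ⟨a, b, hab⟩ := h g
    rw [hab]
    exact add_mem (SubfieldClass.ratCast_mem _ a)
      (mul_mem (SubfieldClass.ratCast_mem _ b) (IntermediateField.mem_adjoin_simple_self ℚ s))
  · rw [IntermediateField.adjoin_simple_le_iff]
    have : ∃ g, χ g ∉ (⊥ : IntermediateField ℚ ℂ) := by
      by_contra hc
      push Not at hc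
      apply hb
      rw [eq_bot_iff, IntermediateField.adjoin_le_iff]
      rintro _ ⟨g, rfl⟩
      exact hc g
    obtain ⟨g, hg⟩ := this
    obtain ⟨a, b, hab⟩ := h g
    have hb0 : (b : ℂ) ≠ 0 := by
      intro h0
      apply hg
      rw [hab, h0, zero_mul, add_zero]
      exact SubfieldClass.ratCast_mem _ a
    have hs : s = (χ g - a) / b := by
      rw [hab]; field_simp; ring
    rw [hs]
    exact div_mem (sub_mem (IntermediateField.subset_adjoin ℚ _ ⟨g, rfl⟩)
      (SubfieldClass.ratCast_mem _ a)) (SubfieldClass.ratCast_mem _ b)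

lemma six_mem {s : ℂ} (hs : s ^ 2 = -3) {z : ℂ} (hz : z ^ 6 = 1) : z ∈ quad s := by
  have h : (z - 1) * (z + 1) * (2 * z - 1 - s) * (2 * z - 1 + s) * (2 * z + 1 - s) *
      (2 * z + 1 + s) = 0 := by
    have e1 : (2 * z - 1 - s) * (2 * z - 1 + s) = 4 * (z ^ 2 - z + 1) := by
      linear_combination -hs
    have e2 : (2 * z + 1 - s) * (2 * z + 1 + s) = 4 * (z ^ 2 + z + 1) := by
      linear_combination -hs
    calc _ = (z - 1) * (z + 1) * ((2 * z - 1 - s) * (2 * z - 1 + s)) *
        ((2 * z + 1 - s) * (2 * z + 1 + s)) := by ring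
      _ = 16 * (z ^ 6 - 1) := by rw [e1, e2]; ring
      _ = 0 := by rw [hz]; ring
  simp only [mul_eq_zero] at h
  rcases h with ((((h | h) | h) | h) | h) | h
  · exact ⟨1, 0, by push_cast; linear_combination h⟩
  · exact ⟨-1, 0, by push_cast; linear_combination h⟩
  · exact ⟨1 / 2, 1 / 2, by push_cast; linear_combination h / 2⟩
  · exact ⟨1 / 2, -1 / 2, by push_cast; linear_combination h / 2⟩
  · exact ⟨-1 / 2, 1 / 2, by push_cast; linear_combination h / 2⟩
  · exact ⟨-1 / 2, -1 / 2, by push_cast; linear_combination h / 2⟩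

lemma gauss13 {s : ℂ} (hs : s ^ 2 = 13) {z : ℂ} (hz : z ^ 13 = 1) :
    z + z ^ 3 + z ^ 9 + z ^ 17 + z ^ 23 + z ^ 25 ∈ quad s := by
  have e : z + z ^ 3 + z ^ 9 + z ^ 17 + z ^ 23 + z ^ 25 =
      z + z ^ 3 + z ^ 9 + z ^ 4 + z ^ 10 + z ^ 12 := by
    linear_combination (z ^ 4 + z ^ 10 + z ^ 12) * hz
  rw [e]
  by_cases h1 : z = 1
  · exact ⟨6, 0, by rw [h1]; push_cast; ring⟩
  have h2 : 1 + z + z ^ 2 + z ^ 3 + z ^ 4 + z ^ 5 + z ^ 6 + z ^ 7 + z ^ 8 + z ^ 9 + z ^ 10 +
      z ^ 11 + z ^ 12 = 0 := by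
    apply mul_left_cancel₀ (sub_ne_zero.2 h1)
    linear_combination hz
  set η := z + z ^ 3 + z ^ 9 + z ^ 4 + z ^ 10 + z ^ 12 with hη
  have h3 : η ^ 2 + η - 3 = 0 := by
    rw [hη]
    linear_combination (z ^ 11 + 2 * z ^ 9 + 2 * z ^ 8 + z ^ 7 + 2 * z ^ 6 + z ^ 5 + 2 * z ^ 3 +
      2 * z ^ 2 + 2 * z + 6) * hz + 3 * h2
  have h4 : (2 * η + 1 - s) * (2 * η + 1 + s) = 0 := by
    linear_combination 4 * h3 - hs
  rcases mul_eq_zero.1 h4 with h | h
  · exact ⟨-1 / 2, 1 / 2, by push_cast; linear_combination h / 2⟩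
  · exact ⟨-1 / 2, -1 / 2, by push_cast; linear_combination h / 2⟩

lemma gauss26 {s : ℂ} (hs : s ^ 2 = 13) {z : ℂ} (hz : z ^ 26 = 1) :
    z + z ^ 3 + z ^ 9 + z ^ 17 + z ^ 23 + z ^ 25 ∈ quad s := by
  have h : (z ^ 13 - 1) * (z ^ 13 + 1) = 0 := by linear_combination hz
  rcases mul_eq_zero.1 h with h | h
  · exact gauss13 hs (sub_eq_zero.1 h)
  · have h1 : (-z) ^ 13 = 1 := by linear_combination -h
    have h2 := neg_mem (gauss13 hs h1)
    convert h2 using 1
    ring

/-- A criterion for quadratic rationality. -/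
lemma isQR_of {G : Type} [Group G] [Finite G] (N : Subgroup G) [N.Normal]
    (h6 : ∀ x : G, x ^ 6 ∈ N)
    (h : ∀ x : G, (∀ n ∈ N, IsConj (x * n) x) ∨ (x ^ 26 = 1 ∧ IsConj (x ^ 17) x)) : IsQR G := by
  intro V _ _ _ ρ hρ
  rcases dich N ρ with h1 | h1
  · obtain ⟨s, hs⟩ := IsAlgClosed.exists_pow_nat_eq (-3 : ℂ) (n := 2) (by norm_num)
    have hm : ∀ g, ρ.character g ∈ quad s := by
      intro g
      have hT : (ρ g) ^ 6 = 1 := by rw [← map_pow]; exact h1 _ (h6 g)
      have := trace_mem (ρ g) hT X (by simp) (quad s) (fun z hz => by simpa using six_mem hs hz)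
      simpa [Representation.character] using this
    rcases adjoin_quad _ s hm with h2 | h2
    · exact Or.inl h2
    · refine Or.inr ⟨-3, ?_, s, by push_cast; exact hs, h2⟩
      have : Prime (-3 : ℤ) := Prime.neg Int.prime_three
      exact this.squarefree
  · obtain ⟨s, hs⟩ := IsAlgClosed.exists_pow_nat_eq (13 : ℂ) (n := 2) (by norm_num)
    have hm : ∀ g, ρ.character g ∈ quad s := by
      intro g
      rcases h g with h2 | ⟨h2, h3⟩
      · rw [h1 g h2]; exact zero_mem _
      have hT : (ρ g) ^ 26 = 1 := by rw [← map_pow, h2, map_one]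
      have hc : ∀ k : ℕ, IsConj (g ^ k) g → IsConj (g ^ (k * 17 % 26)) g := by
        intro k hk
        have : g ^ (k * 17 % 26) = (g ^ k) ^ 17 := by
          rw [← pow_mul, ← pow_eq_pow_mod _ h2]
        rw [this]
        exact (hk.pow 17).trans h3
      have c3 : IsConj (g ^ 3) g := hc 17 h3
      have c25 : IsConj (g ^ 25) g := hc 3 c3
      have c9 : IsConj (g ^ 9) g := hc 25 c25
      have c23 : IsConj (g ^ 23) g := hc 9 c9
      have hch : ∀ k : ℕ, IsConj (g ^ k) g → LinearMap.trace ℂ V (ρ g ^ k) = ρ.character g := by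
        intro k hk
        obtain ⟨c, hc⟩ := isConj_iff.1 hk
        rw [← map_pow]
        show ρ.character (g ^ k) = _
        rw [← ρ.char_conj (g ^ k) c, hc]
      have hdeg : (X + X ^ 3 + X ^ 9 + X ^ 17 + X ^ 23 + X ^ 25 : ℂ[X]).degree = 25 := by
        compute_degree!
      have := trace_mem (ρ g) hT (X + X ^ 3 + X ^ 9 + X ^ 17 + X ^ 23 + X ^ 25)
        (by rw [hdeg]; norm_num) (quad s) (fun z hz => by simpa using gauss26 hs hz)
      simp only [map_add, map_pow, aeval_X, hch _ c3, hch _ c9, hch _ h3, hch _ c23,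
        hch _ c25] at this
      obtain ⟨a, b, hab⟩ := this
      refine ⟨a / 6, b / 6, ?_⟩
      push_cast
      have e : LinearMap.trace ℂ V (ρ g) = ρ.character g := rfl
      rw [e] at hab
      linear_combination hab / 6
    rcases adjoin_quad _ s hm with h2 | h2
    · exact Or.inl h2
    · refine Or.inr ⟨13, ?_, s, by push_cast; exact hs, h2⟩
      have : Prime (13 : ℤ) := Int.prime_iff_natAbs_prime.2 (by norm_num)
      exact this.squarefree

lemma exists_coprime_pow {G : Type} [Group G] (x : G) {M : ℕ} (hM : M ≠ 0) (hx : x ^ M = 1)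
    (j : ℤ) (hj : Int.gcd j (orderOf x) = 1) :
    ∃ n : ℕ, n < M ∧ Nat.Coprime n M ∧ x ^ j = x ^ n := by
  have : NeZero M := ⟨hM⟩
  have hd : orderOf x ∣ M := orderOf_dvd_of_pow_eq_one hx
  have hu : IsUnit ((j : ZMod (orderOf x))) := by
    rw [ZMod.coe_int_isUnit_iff_isCoprime]
    exact (Int.isCoprime_iff_gcd_eq_one.2 hj).symm
  obtain ⟨w, hw⟩ := ZMod.unitsMap_surjective hd hu.unit
  refine ⟨(w : ZMod M).val, ZMod.val_lt _, ZMod.val_coe_unit_coprime w, ?_⟩
  rw [← zpow_natCast, zpow_eq_zpow_iff_modEq, ← ZMod.intCast_eq_intCast_iff]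
  have := congrArg Units.val hw
  rw [ZMod.unitsMap_val, IsUnit.unit_spec] at this
  rw [← this, Int.cast_natCast, ZMod.natCast_val]

/-- A criterion for being `5`-semi-rational. -/
lemma isUSR_of {G : Type} [Group G]
    (h : ∀ x : G, x ^ 6 = 1 ∨ (x ^ 26 = 1 ∧ IsConj (x ^ 17) x)) : IsUSR G := by
  refine ⟨5, fun x j hj => ?_⟩
  have e5 : x ^ (5 : ℤ) = x ^ 5 := zpow_natCast x 5
  rw [e5]
  rcases h x with h6 | ⟨h2, h3⟩
  · obtain ⟨n, hn, hc, e⟩ := exists_coprime_pow x (by norm_num) h6 j hj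
    rw [e]
    have : n = 1 ∨ n = 5 := by
      interval_cases n <;> simp_all (config := {decide := true})
    rcases this with rfl | rfl
    · left; rw [pow_one]
    · right; rfl
  · obtain ⟨n, hn, hc, e⟩ := exists_coprime_pow x (by norm_num) h2 j hj
    rw [e]
    have hc' : ∀ k : ℕ, IsConj (x ^ k) x → IsConj (x ^ (k * 17 % 26)) x := by
      intro k hk
      have : x ^ (k * 17 % 26) = (x ^ k) ^ 17 := by
        rw [← pow_mul, ← pow_eq_pow_mod _ h2]
      rw [this]
      exact (hk.pow 17).trans h3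
    have h5 : ∀ k : ℕ, IsConj (x ^ k) x → IsConj (x ^ (k * 5 % 26)) (x ^ 5) := by
      intro k hk
      have : x ^ (k * 5 % 26) = (x ^ k) ^ 5 := by
        rw [← pow_mul, ← pow_eq_pow_mod _ h2]
      rw [this]
      exact hk.pow 5
    have c1 : IsConj (x ^ 1) x := by rw [pow_one]
    have c3 : IsConj (x ^ 3) x := hc' 17 h3
    have c25 : IsConj (x ^ 25) x := hc' 3 c3
    have c9 : IsConj (x ^ 9) x := hc' 25 c25
    have c23 : IsConj (x ^ 23) x := hc' 9 c9
    have : n = 1 ∨ n = 17 ∨ n = 3 ∨ n = 25 ∨ n = 9 ∨ n = 23 ∨ n = 5 ∨ n = 7 ∨ n = 15 ∨ n = 21 ∨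
        n = 19 ∨ n = 11 := by
      interval_cases n <;> simp_all (config := {decide := true})
    rcases this with rfl | rfl | rfl | rfl | rfl | rfl | rfl | rfl | rfl | rfl | rfl | rfl
    · exact Or.inl c1
    · exact Or.inl h3
    · exact Or.inl c3
    · exact Or.inl c25
    · exact Or.inl c9
    · exact Or.inl c23
    · exact Or.inr (h5 1 c1)
    · exact Or.inr (h5 17 h3)
    · exact Or.inr (h5 3 c3)
    · exact Or.inr (h5 25 c25)
    · exact Or.inr (h5 9 c9)
    · exact Or.inr (h5 23 c23)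

end Pool.Agent.MP_9181f8_al
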