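import Mathlib

/-!
Semi-rational, uniformly semi-rational, quadratic rational and quadratic semi-rational groups.
-/

namespace Pool.Agent.MP_9181f8_al

/-- Semi-rational groups. -/
def IsSR (G : Type) [Group G] : Prop :=
  ∀ x : G, ∃ m : ℤ, ∀ j : ℤ, Int.gcd j (orderOf x) = 1 → IsConj (x ^ j) x ∨ IsConj (x ^ j) (x ^ m)

/-- Uniformly semi-rational groups: one integer `m` serves for all elements. -/
def IsUSR (G : Type) [Group G] : Prop :=
  ∃ m : ℤ, ∀ x : G, ∀ j : ℤ, Int.gcd j (orderOf x) = 1 → IsConj (x ^ j) x ∨ IsConj (x ^ j) (x ^ m)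

/-- Quadratic rational groups: the field of values of every irreducible complex character is
`ℚ` or `ℚ(√d)` with `d` a square-free integer. -/
def IsQR (G : Type) [Group G] : Prop :=
  ∀ (V : Type) [AddCommGroup V] [Module ℂ V] [FiniteDimensional ℂ V] (ρ : Representation ℂ G V),
    ρ.IsIrreducible →
      IntermediateField.adjoin ℚ (Set.range ρ.character) = ⊥ ∨
        ∃ d : ℤ, Squarefree d ∧ ∃ s : ℂ, s ^ 2 = d ∧
          IntermediateField.adjoin ℚ (Set.range ρ.character) = IntermediateField.adjoin ℚ {s}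

/-- Quadratic semi-rational groups. -/
def IsQSR (G : Type) [Group G] : Prop := IsSR G ∧ IsQR G

end Pool.Agent.MP_9181f8_al
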