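import Pool.Agent.MP_9181f8_al.Char

namespace Pool.Agent.MP_9181f8_al

local instance fact13 : Fact (Nat.Prime 13) := ⟨by norm_num⟩

/-- The field with `13` elements. -/
abbrev K := ZMod 13

variable {A U : Type} [AddCommGroup A] [Module K A] [AddCommGroup U] [Module K U]

/-- A Heisenberg type group extended by the diagonal group of order `12`. -/
@[ext]
structure Gp (β : A →ₗ[K] A →ₗ[K] U) where
  a : A
  b : A
  u : U
  p : K
  q : K
  hp : p ^ 6 = 1
  hq : p ^ 2 = q ^ 2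

namespace Gp

variable {β : A →ₗ[K] A →ₗ[K] U}

lemma p_ne (x : Gp β) : x.p ≠ 0 := by
  intro h
  have := x.hp
  rw [h] at this
  exact absurd this (by decide)

lemma q_ne (x : Gp β) : x.q ≠ 0 := by
  intro h
  have := x.hq
  rw [h] at this
  exact x.p_ne (by simpa using this)

instance : Mul (Gp β) := ⟨fun x y =>
  ⟨x.a + x.p • y.a, x.b + x.q • y.b, x.u + (x.p * x.q) • y.u + β x.a (x.q • y.b),
    x.p * y.p, x.q * y.q, by rw [mul_pow, x.hp, y.hp, mul_one],
    by rw [mul_pow, mul_pow, x.hq, y.hq]⟩⟩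

instance : One (Gp β) := ⟨⟨0, 0, 0, 1, 1, by simp, rfl⟩⟩

instance : Inv (Gp β) := ⟨fun x =>
  ⟨-(x.p⁻¹ • x.a), -(x.q⁻¹ • x.b), -((x.p⁻¹ * x.q⁻¹) • x.u) + (x.p⁻¹ * x.q⁻¹) • β x.a x.b,
    x.p⁻¹, x.q⁻¹, by rw [inv_pow, x.hp, inv_one], by rw [inv_pow, inv_pow, x.hq]⟩⟩

@[simp] lemma mul_a (x y : Gp β) : (x * y).a = x.a + x.p • y.a := rfl
@[simp] lemma mul_b (x y : Gp β) : (x * y).b = x.b + x.q • y.b := rfl
@[simp] lemma mul_u (x y : Gp β) :
    (x * y).u = x.u + (x.p * x.q) • y.u + β x.a (x.q • y.b) := rfl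
@[simp] lemma mul_p (x y : Gp β) : (x * y).p = x.p * y.p := rfl
@[simp] lemma mul_q (x y : Gp β) : (x * y).q = x.q * y.q := rfl
@[simp] lemma one_a : (1 : Gp β).a = 0 := rfl
@[simp] lemma one_b : (1 : Gp β).b = 0 := rfl
@[simp] lemma one_u : (1 : Gp β).u = 0 := rfl
@[simp] lemma one_p : (1 : Gp β).p = 1 := rfl
@[simp] lemma one_q : (1 : Gp β).q = 1 := rfl
@[simp] lemma inv_a (x : Gp β) : x⁻¹.a = -(x.p⁻¹ • x.a) := rfl
@[simp] lemma inv_b (x : Gp β) : x⁻¹.b = -(x.q⁻¹ • x.b) := rfl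
@[simp] lemma inv_u (x : Gp β) :
    x⁻¹.u = -((x.p⁻¹ * x.q⁻¹) • x.u) + (x.p⁻¹ * x.q⁻¹) • β x.a x.b := rfl
@[simp] lemma inv_p (x : Gp β) : x⁻¹.p = x.p⁻¹ := rfl
@[simp] lemma inv_q (x : Gp β) : x⁻¹.q = x.q⁻¹ := rfl

instance : Group (Gp β) := Group.ofLeftAxioms
  (fun x y z => by
    ext
    · simp only [mul_a, mul_p]; module
    · simp only [mul_b, mul_q]; module
    · simp only [mul_u, mul_a, mul_b, mul_p, mul_q, map_add, map_smul, LinearMap.add_apply,
        LinearMap.smul_apply]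
      module
    · simp only [mul_p]; ring
    · simp only [mul_q]; ring)
  (fun x => by ext <;> simp)
  (fun x => by
    ext
    · simp
    · simp
    · simp only [mul_u, inv_u, inv_p, inv_q, inv_a, map_neg, map_smul, LinearMap.neg_apply,
        LinearMap.smul_apply, one_u]
      module
    · simp [x.p_ne]
    · simp [x.q_ne])

instance [Finite A] [Finite U] : Finite (Gp β) :=
  Finite.of_injective (fun x : Gp β => (x.a, x.b, x.u, x.p, x.q)) (by
    intro x y h
    simp only [Prod.mk.injEq] at h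
    ext <;> simp [h])

lemma pow_p (x : Gp β) (n : ℕ) : (x ^ n).p = x.p ^ n := by
  induction n with
  | zero => simp
  | succ n ih => rw [pow_succ, mul_p, ih, pow_succ]

lemma pow_q (x : Gp β) (n : ℕ) : (x ^ n).q = x.q ^ n := by
  induction n with
  | zero => simp
  | succ n ih => rw [pow_succ, mul_q, ih, pow_succ]

lemma hq6 (x : Gp β) : x.q ^ 6 = 1 := by
  have := x.hp
  have h := x.hq
  calc x.q ^ 6 = (x.q ^ 2) ^ 3 := by ring
    _ = (x.p ^ 2) ^ 3 := by rw [h]
    _ = 1 := by rw [← this]; ring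

/-- The Heisenberg type normal subgroup. -/
def N (β : A →ₗ[K] A →ₗ[K] U) : Subgroup (Gp β) where
  carrier := {x | x.p = 1 ∧ x.q = 1}
  mul_mem' := by
    rintro x y ⟨h1, h2⟩ ⟨h3, h4⟩
    exact ⟨by simp [h1, h3], by simp [h2, h4]⟩
  one_mem' := ⟨rfl, rfl⟩
  inv_mem' := by
    rintro x ⟨h1, h2⟩
    exact ⟨by simp [h1], by simp [h2]⟩

instance : (N β).Normal := ⟨by
  rintro x ⟨h1, h2⟩ g
  exact ⟨by simp [h1, g.p_ne], by simp [h2, g.q_ne]⟩⟩

/-- Its centre. -/
def Z (β : A →ₗ[K] A →ₗ[K] U) : Subgroup (Gp β) where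
  carrier := {x | x.p = 1 ∧ x.q = 1 ∧ x.a = 0 ∧ x.b = 0}
  mul_mem' := by
    rintro x y ⟨h1, h2, h5, h6⟩ ⟨h3, h4, h7, h8⟩
    exact ⟨by simp [h1, h3], by simp [h2, h4], by simp [h5, h7], by simp [h6, h8]⟩
  one_mem' := ⟨rfl, rfl, rfl, rfl⟩
  inv_mem' := by
    rintro x ⟨h1, h2, h3, h4⟩
    exact ⟨by simp [h1], by simp [h2], by simp [h3], by simp [h4]⟩

instance : Group.IsSolvable (Gp β) := by
  have h1 : derivedSeries (Gp β) 1 ≤ N β := by
    rw [derivedSeries_succ, Subgroup.commutator_le]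
    intro x _ y _
    have := x.p_ne; have := y.p_ne; have := x.q_ne; have := y.q_ne
    refine ⟨?_, ?_⟩
    · simp only [commutatorElement_def, mul_p, inv_p]; field_simp
    · simp only [commutatorElement_def, mul_q, inv_q]; field_simp
  have h2 : derivedSeries (Gp β) 2 ≤ Z β := by
    rw [derivedSeries_succ, Subgroup.commutator_le]
    intro x hx y hy
    obtain ⟨a1, a2⟩ := h1 hx
    obtain ⟨a3, a4⟩ := h1 hy
    refine ⟨?_, ?_, ?_, ?_⟩ <;> simp [commutatorElement_def, a1, a2, a3, a4]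
  refine ⟨3, ?_⟩
  rw [derivedSeries_succ, eq_bot_iff, Subgroup.commutator_le]
  intro x hx y hy
  obtain ⟨a1, a2, a5, a6⟩ := h2 hx
  obtain ⟨a3, a4, a7, a8⟩ := h2 hy
  rw [Subgroup.mem_bot]
  ext <;> simp [commutatorElement_def, a1, a2, a3, a4, a5, a6, a7, a8]

lemma conj_of {x y : Gp β} (c : Gp β) (h : c * x = y * c) : IsConj x y :=
  isConj_iff.2 ⟨c, by rw [h, mul_inv_cancel_right]⟩

/-- Conjugation by an element of `N`. -/
lemma conj_N (x y : Gp β) (a b : A) (u : U) (hp : y.p = x.p) (hq : y.q = x.q)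
    (ha : y.a = x.a + (1 - x.p) • a) (hb : y.b = x.b + (1 - x.q) • b)
    (hu : y.u = x.u + (1 - x.p * x.q) • u + β a x.b - β y.a (x.q • b)) : IsConj x y := by
  refine conj_of ⟨a, b, u, 1, 1, by simp, rfl⟩ ?_
  ext
  · simp only [mul_a, hp, ha]; module
  · simp only [mul_b, hq, hb]; module
  · simp only [mul_u, hp, hq, hu, one_smul, mul_one]; module
  · simp [hp]
  · simp [hq]

/-- Conjugation by a diagonal element. -/
lemma conj_D (x y : Gp β) (s t : K) (hs : s ^ 6 = 1) (ht : s ^ 2 = t ^ 2) (hp : y.p = x.p)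
    (hq : y.q = x.q) (ha : y.a = s • x.a) (hb : y.b = t • x.b) (hu : y.u = (s * t) • x.u) :
    IsConj x y := by
  refine conj_of ⟨0, 0, 0, s, t, hs, ht⟩ ?_
  ext <;> simp [hp, hq, ha, hb, hu, mul_comm]

lemma kill {M : Type} [AddCommGroup M] [Module K M] (p : K) (a : M) :
    p • (a + (1 - p) • -((1 - p)⁻¹ • a)) = a + (1 - p) • -((1 - p)⁻¹ • a) := by
  by_cases h : p = 1
  · simp [h]
  · have h' : 1 - p ≠ 0 := sub_ne_zero.2 (Ne.symm h)
    rw [smul_neg, smul_smul, mul_inv_cancel₀ h', one_smul, add_neg_cancel, smul_zero]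

/-- Normal form under conjugation. -/
lemma normal_form (x : Gp β) : ∃ y : Gp β, IsConj x y ∧ y.p = x.p ∧ y.q = x.q ∧
    y.p • y.a = y.a ∧ y.q • y.b = y.b ∧ (y.p * y.q) • y.u = y.u := by
  set a := -((1 - x.p)⁻¹ • x.a)
  set b := -((1 - x.q)⁻¹ • x.b)
  set w := x.u + β a x.b - β (x.a + (1 - x.p) • a) (x.q • b)
  set u := -((1 - x.p * x.q)⁻¹ • w)
  refine ⟨⟨x.a + (1 - x.p) • a, x.b + (1 - x.q) • b, w + (1 - x.p * x.q) • u, x.p, x.q, x.hp,
    x.hq⟩, conj_N _ _ a b u rfl rfl rfl rfl ?_, rfl, rfl, kill _ _, kill _ _, kill _ _⟩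
  simp only [w]
  module

lemma fix_pow {M : Type} [AddCommGroup M] [Module K M] {p : K} {a : M} (h : p • a = a) (n : ℕ) :
    p ^ n • a = a := by
  induction n with
  | zero => simp
  | succ n ih => rw [pow_succ, mul_smul, h, ih]

lemma fix_zero {M : Type} [AddCommGroup M] [Module K M] {p : K} {a : M} (h : p • a = a)
    (hp : p ≠ 1) : a = 0 := by
  have : (p - 1) • a = 0 := by rw [sub_smul, h, one_smul, sub_self]
  exact (smul_eq_zero.1 this).resolve_left (sub_ne_zero.2 hp)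

lemma pow_fix (y : Gp β) (ha : y.p • y.a = y.a) (hb : y.q • y.b = y.b)
    (hu : (y.p * y.q) • y.u = y.u) (n : ℕ) :
    (y ^ n).a = (n : K) • y.a ∧ (y ^ n).b = (n : K) • y.b ∧
      (y ^ n).u = (n : K) • y.u + (n.choose 2 : K) • β y.a y.b := by
  induction n with
  | zero => simp
  | succ n ih =>
    obtain ⟨h1, h2, h3⟩ := ih
    refine ⟨?_, ?_, ?_⟩
    · rw [pow_succ, mul_a, h1, pow_p, fix_pow ha]; push_cast; module
    · rw [pow_succ, mul_b, h2, pow_q, fix_pow hb]; push_cast; module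
    · rw [pow_succ, mul_u, h1, h3, pow_p, pow_q, ← mul_pow, fix_pow hu, fix_pow hb,
        Nat.choose_succ_succ' n 1, Nat.choose_one_right]
      simp only [map_smul, LinearMap.smul_apply]
      push_cast; module

lemma case_big (x : Gp β) (h : x.p ^ 2 ≠ 1) :
    IsConj x ⟨0, 0, 0, x.p, x.q, x.hp, x.hq⟩ := by
  obtain ⟨y, hy, h1, h2, h3, h4, h5⟩ := normal_form x
  have key : ∀ p q : K, p ^ 6 = 1 → p ^ 2 = q ^ 2 → p ^ 2 ≠ 1 → p ≠ 1 ∧ q ≠ 1 ∧ p * q ≠ 1 := by
    decide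
  obtain ⟨k1, k2, k3⟩ := key x.p x.q x.hp x.hq h
  rw [← h1] at k1; rw [← h2] at k2; rw [← h1, ← h2] at k3
  convert hy using 1
  ext
  · exact (fix_zero h3 k1).symm
  · exact (fix_zero h4 k2).symm
  · exact (fix_zero h5 k3).symm
  · exact h1.symm
  · exact h2.symm

lemma six_of_big (x : Gp β) (h : x.p ^ 2 ≠ 1) : x ^ 6 = 1 := by
  have h1 := (case_big x h).pow 6
  have h2 : (⟨0, 0, 0, x.p, x.q, x.hp, x.hq⟩ : Gp β) ^ 6 = 1 := by
    obtain ⟨k1, k2, k3⟩ := pow_fix (⟨0, 0, 0, x.p, x.q, x.hp, x.hq⟩ : Gp β) (by simp) (by simp)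
      (by simp) 6
    ext
    · simp [k1]
    · simp [k2]
    · simp [k3]
    · rw [pow_p]; exact x.hp
    · rw [pow_q]; exact x.hq6
  rw [h2] at h1
  exact isConj_one_left.1 h1

lemma coset_of_big (x : Gp β) (h : x.p ^ 2 ≠ 1) : ∀ n ∈ N β, IsConj (x * n) x := by
  rintro n ⟨h1, h2⟩
  have e1 : (x * n).p = x.p := by simp [h1]
  have e2 : (x * n).q = x.q := by simp [h2]
  have h3 := case_big (x * n) (by rw [e1]; exact h)
  refine h3.trans ?_
  convert (case_big x h).symm using 2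

lemma small (hl : ∀ a, a ≠ 0 → Function.Surjective (β a))
    (hr : ∀ b, b ≠ 0 → Function.Surjective (β.flip b)) (x : Gp β) (h : x.p ^ 2 = 1) :
    x ^ 26 = 1 ∧ IsConj (x ^ 17) x := by
  obtain ⟨y, hy, h1, h2, h3, h4, h5⟩ := normal_form x
  rw [← h1] at h
  have hq : y.q ^ 2 = 1 := by rw [← y.hq, h]
  have key : ∀ p : K, p ^ 2 = 1 → p ^ 26 = 1 ∧ p ^ 17 = p ∧ (p = 1 ∨ p = -1) := by decide
  obtain ⟨p1, p2, p3⟩ := key _ h
  obtain ⟨q1, q2, q3⟩ := key _ hq
  constructor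
  · have e : y ^ 26 = 1 := by
      obtain ⟨k1, k2, k3⟩ := pow_fix y h3 h4 h5 26
      have z1 : ((26 : ℕ) : K) = 0 := by decide
      have z2 : ((Nat.choose 26 2 : ℕ) : K) = 0 := by decide
      rw [z1] at k1 k2 k3
      rw [z2] at k3
      ext
      · simp [k1]
      · simp [k2]
      · simp [k3]
      · rw [pow_p]; exact p1
      · rw [pow_q]; exact q1
    have := hy.pow 26
    rw [e] at this
    exact isConj_one_left.1 this
  · refine (hy.pow 17).trans (IsConj.trans (IsConj.symm ?_) hy.symm)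
    obtain ⟨k1, k2, k3⟩ := pow_fix y h3 h4 h5 17
    have z1 : ((17 : ℕ) : K) = 4 := by decide
    have z2 : ((Nat.choose 17 2 : ℕ) : K) = 6 := by decide
    rw [z1] at k1 k2 k3
    rw [z2] at k3
    have e1 : (y ^ 17).p = y.p := by rw [pow_p, p2]
    have e2 : (y ^ 17).q = y.q := by rw [pow_q, q2]
    by_cases hab : y.a = 0 ∧ y.b = 0
    · refine conj_D y _ 3 10 (by decide) (by decide) e1 e2 (by simp [k1, hab.1])
        (by simp [k2, hab.2]) ?_
      have : (3 * 10 : K) = 4 := by decide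
      simp [k3, hab.1, this]
    · let z : Gp β := ⟨(4 : K) • y.a, (4 : K) • y.b, ((4 : K) * 4) • y.u, y.p, y.q, y.hp, y.hq⟩
      have hz : IsConj y z := conj_D y z 4 4 (by decide) rfl rfl rfl rfl rfl rfl
      refine hz.trans ?_
      have h40 : (4 : K) ≠ 0 := by decide
      by_cases hpq : y.p = 1 ∧ y.q = 1
      · rcases not_and_or.1 hab with ha | hb
        · obtain ⟨b, hb⟩ := hl _ (smul_ne_zero h40 ha) (z.u - (y ^ 17).u)
          refine conj_N z _ 0 b 0 e1 e2 (by simp [k1, z]) (by simp [k2, z, hpq.2]) ?_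
          have : z.q = 1 := hpq.2
          rw [this, one_smul, k1, hb]
          simp
        · obtain ⟨a, ha⟩ := hr _ (smul_ne_zero h40 hb) ((y ^ 17).u - z.u)
          refine conj_N z _ a 0 0 e1 e2 (by simp [k1, z, hpq.1]) (by simp [k2, z]) ?_
          have : β a z.b = (y ^ 17).u - z.u := ha
          rw [this]
          simp
      · have hm : (-1 : K) ≠ 1 := by decide
        have hu : y.u = 0 ∧ β y.a y.b = 0 := by
          rcases p3 with p3 | p3 <;> rcases q3 with q3 | q3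
          · exact absurd ⟨p3, q3⟩ hpq
          · refine ⟨fix_zero h5 (by rw [p3, q3]; decide), ?_⟩
            rw [fix_zero h4 (by rw [q3]; exact hm), map_zero]
          · refine ⟨fix_zero h5 (by rw [p3, q3]; decide), ?_⟩
            rw [fix_zero h3 (by rw [p3]; exact hm), map_zero, LinearMap.zero_apply]
          · exact absurd ⟨fix_zero h3 (by rw [p3]; exact hm), fix_zero h4 (by rw [q3]; exact hm)⟩
              hab
        have : z = y ^ 17 := by
          ext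
          · exact k1.symm
          · exact k2.symm
          · simp [k3, z, hu.1, hu.2]
          · exact e1.symm
          · exact e2.symm
        rw [this]

lemma isUSR (hl : ∀ a, a ≠ 0 → Function.Surjective (β a))
    (hr : ∀ b, b ≠ 0 → Function.Surjective (β.flip b)) : IsUSR (Gp β) := by
  refine isUSR_of fun x => ?_
  by_cases h : x.p ^ 2 = 1
  · exact Or.inr (small hl hr x h)
  · exact Or.inl (six_of_big x h)

lemma isQR [Finite A] [Finite U] (hl : ∀ a, a ≠ 0 → Function.Surjective (β a))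
    (hr : ∀ b, b ≠ 0 → Function.Surjective (β.flip b)) : IsQR (Gp β) := by
  refine isQR_of (N β) (fun x => ⟨by rw [pow_p]; exact x.hp, by rw [pow_q]; exact x.hq6⟩)
    fun x => ?_
  by_cases h : x.p ^ 2 = 1
  · exact Or.inr (small hl hr x h)
  · exact Or.inl (coset_of_big x h)

end Gp

end Pool.Agent.MP_9181f8_al
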